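import Pool.Agent.Helper62.WB.Goals
import Pool.Agent.Helper62.WB.Basic

/-!
# Project WB (MP_08df5f_al): packet S3

A bicontinuous automorphism of a weakly branch group is induced by a homeomorphism of the boundary.
-/

set_option autoImplicit false

namespace Pool.Agent.Helper13.WB

open Pool.Agent.Helper62.WB

variable {T : RTree} {D : Type} [Group D]

/-- the hypotheses are symmetric -/
theorem bic_symm {b : TAct T D} {τ : D ≃* D} (h : Bic b τ) : Bic b τ.symm :=
  ⟨h.1, h.2.2, by simpa using h.2.1⟩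

/-- the map of the boundary defined by the supports -/
theorem exists_map (h0 : StmtS0) (h1 : StmtS1) (h2 : StmtS2) {b : TAct T D} {τ : D ≃* D}
    (hb : Bic b τ) :
    ∃ g : T.Bd → T.Bd, (∀ n x, x ∈ supp b τ ((g x).1 n)) ∧
      (∀ n x (v : T.L n), x ∈ supp b τ v → (g x).1 n = v) := by
  obtain ⟨_, s2, _, _, _⟩ := h0 T D b τ hb
  have uniq : ∀ n (v w : T.L n) x, x ∈ supp b τ v → x ∈ supp b τ w → v = w := by
    intro n v w x hv hw
    by_contra hne
    exact Set.disjoint_left.mp (h1 T D b τ hb n v w hne) hv hw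
  choose G hG using fun (x : T.Bd) (n : ℕ) => h2 T D b τ hb n x
  exact ⟨fun x => ⟨fun n => G x n, fun n => uniq n _ _ x (s2 n _ (hG x (n + 1))) (hG x n)⟩,
    fun n x => hG x n, fun n x v hv => uniq n _ _ x (hG x n) hv⟩

/-- equivariance -/
theorem map_equivariant (h0 : StmtS0) {b : TAct T D} {τ : D ≃* D} (hb : Bic b τ)
    {g : T.Bd → T.Bd} (hg : ∀ n x, x ∈ supp b τ ((g x).1 n))
    (hg2 : ∀ n x (v : T.L n), x ∈ supp b τ v → (g x).1 n = v) (d : D) (x : T.Bd) :
    g (b.bd (τ d) x) = b.bd d (g x) := by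
  obtain ⟨_, _, s3, _, _⟩ := h0 T D b τ hb
  apply Subtype.ext
  funext n
  exact hg2 n _ _ ((s3 n _ d x).1 (hg n x))

/-- continuity -/
theorem map_continuous (h0 : StmtS0) {b : TAct T D} {τ : D ≃* D} (hb : Bic b τ)
    {g : T.Bd → T.Bd} (hg : ∀ n x, x ∈ supp b τ ((g x).1 n))
    (hg2 : ∀ n x (v : T.L n), x ∈ supp b τ v → (g x).1 n = v) (x : T.Bd) (n : ℕ) :
    ∃ k, ∀ z : T.Bd, z.1 k = x.1 k → (g z).1 n = (g x).1 n := by
  obtain ⟨s1, _, _, _, _⟩ := h0 T D b τ hb
  obtain ⟨k, hk⟩ := s1 n _ x (hg n x)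
  exact ⟨k, fun z hz => hg2 n z _ (hk z hz)⟩

/-- the maps for `τ` and for `τ⁻¹` are inverse to each other -/
theorem map_inverse (h0 : StmtS0) (h1 : StmtS1) {b : TAct T D} {τ : D ≃* D} (hb : Bic b τ)
    {g g' : T.Bd → T.Bd} (hg : ∀ n x, x ∈ supp b τ ((g x).1 n))
    (hg' : ∀ n x, x ∈ supp b τ.symm ((g' x).1 n)) (y : T.Bd) :
    g' (g y) = y := by
  obtain ⟨_, _, _, _, s5⟩ := h0 T D b τ hb
  obtain ⟨s1, _, _, _, _⟩ := h0 T D b τ.symm (bic_symm hb)
  apply Subtype.ext
  funext n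
  by_contra hne
  obtain ⟨k, hk⟩ := s1 n _ (g y) (hg' n (g y))
  have hdis := h1 T D b τ.symm (bic_symm hb) n _ _ hne
  -- the level `m`
  obtain ⟨r, hr, hry⟩ := hg (max n k) y
  apply hry
  refine s5 n (y.1 n) (τ r) (fun c hc => ?_) y rfl
  have hfix : ∀ z : T.Bd, z.1 (max n k) = (g y).1 (max n k) → b.bd (τ.symm c) z = z := by
    intro z hz
    have hzw : z ∈ supp b τ.symm ((g' (g y)).1 n) := hk z (bd_eq_of_le (le_max_right n k) hz)
    have hzn : z ∉ supp b τ.symm (y.1 n) := Set.disjoint_left.mp hdis hzw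
    by_contra hne2
    exact hzn ⟨c, hc, hne2⟩
  have hcomm : r * τ.symm c = τ.symm c * r := by
    have hact := Rist_act hr
    refine commute_of_disjoint hb.1 (S := {z | z.1 (max n k) = (g y).1 (max n k)})
      (fun z hz => (mem_Rist_iff b _ r).1 hr z hz) (fun z hz => hfix z hz) (fun z hz => ?_)
      (fun z hz hz2 => ?_)
    · show (b.bd r z).1 (max n k) = (g y).1 (max n k)
      rw [TAct.bd_apply, hact]
      exact hz
    · apply hz
      have h3 := hfix _ hz2
      have h4 : b.bd (τ.symm c) z = z := (b.bd (τ.symm c)).injective h3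
      rw [h4] at hz2
      exact hz2
  have h5 := congrArg τ hcomm
  simpa using h5

/-- PACKET S3 -/
theorem s3 (h0 : StmtS0) (h1 : StmtS1) (h2 : StmtS2) : StmtS3 := by
  intro T D _ b τ hb
  have hb' := bic_symm hb
  obtain ⟨g, hg, hg2⟩ := exists_map h0 h1 h2 hb
  obtain ⟨g', hg', hg'2⟩ := exists_map h0 h1 h2 hb'
  have hb'' : Bic b τ.symm.symm := bic_symm hb'
  refine ⟨⟨g', g, fun x => ?_, fun y => map_inverse h0 h1 hb hg hg' y⟩, ?_, ?_, ?_⟩
  · exact map_inverse h0 h1 hb' hg' (by simpa using hg) x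
  · intro x n
    exact map_continuous h0 hb' hg' hg'2 x n
  · intro x n
    exact map_continuous h0 hb hg hg2 x n
  · intro d x
    have h := map_equivariant h0 hb' hg' hg'2 (τ d) x
    rw [MulEquiv.symm_apply_apply] at h
    exact h

end Pool.Agent.Helper13.WB
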